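import Pool.Agent.H95.FA.Stm

set_option autoImplicit false

/-!
# Project FA: assembly (module FIN)
-/

namespace Pool.Agent.H61.FA

open Pool.Agent.H95.FA Pool.Agent.H95.FB Filter
open Pool.Agent.Q270.PX (An RA rt)
open Real (goldenRatio)

/-- the value of the Laurent polynomial -/
noncomputable def val {m : ℕ} (N : ℕ) (α : Fin m → ℝ) (s : ℕ) : ℝ :=
  ∑ j : Fin m, goldenRatio ^ ((s : ℤ) * ((N : ℤ) - (j : ℕ))) * α j

lemma branch (hCUR : S_CUR) (hEXP : S_EXP) (hSUB : S_SUB) {P : MvPolynomial (Fin 2) ℤ} (hP : P ≠ 0) {κ c : ℝ}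
    (hκ : IsAlgebraic ℚ κ) (hc : IsAlgebraic ℚ c) (hκ0 : κ ≠ 0) :
    ∃ q N m : ℕ, 1 ≤ q ∧ ∃ F : Set (Fin m → ℝ), F.Finite ∧ (∀ α ∈ F, ∀ j, IsAlgebraic ℚ (α j)) ∧
      ∀ᶠ n : ℕ in atTop, ∀ x M : ℤ, κ * M = goldenRatio ^ n - c * (goldenRatio ^ n)⁻¹ →
        MvPolynomial.eval ![x, M] P = 0 → ∃ α ∈ F, (x : ℝ) = val N α (n / q) := by
  obtain ⟨D, q, hq, S, hSf, hSa, T₀, hT⟩ := hCUR P hP κ c hκ hc hκ0
  have h1 : ∀ G ∈ S, ∀ i : ℕ, ∃ α : Fin (q * D + (q * D + 1)) → ℝ, (∀ j, IsAlgebraic ℚ (α j)) ∧ ∃ s₀ : ℕ, ∀ s : ℕ, s₀ ≤ s →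
      ∀ x : ℤ, (x : ℝ) = (goldenRatio ^ (q * s + i)) ^ D * G (rt q (goldenRatio ^ (q * s + i))) →
      (x : ℝ) = val (q * D) α s := by
    intro G hG i
    obtain ⟨α, C, ha, hC, s₁, hs₁⟩ := hEXP G D q i (q * D + 1) (hSa G hG) hq
    obtain ⟨s₂, hs₂⟩ := hSUB _ α (q * D) (q * D + 1) C ha (by omega) le_rfl hC
    refine ⟨α, ha, max s₁ s₂, fun s hs x hx => ?_⟩
    refine hs₂ s (le_trans (le_max_right _ _) hs) x ?_
    rw [hx]
    exact hs₁ s (le_trans (le_max_left _ _) hs)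
  choose! α ha s₀ hs₀ using h1
  refine ⟨q, q * D, q * D + (q * D + 1), hq, (fun y : (ℝ → ℝ) × ℕ => α y.1 y.2) '' (S ×ˢ Set.Iio q),
    (hSf.prod (Set.finite_Iio q)).image _, ?_, ?_⟩
  · rintro _ ⟨⟨G, i⟩, ⟨hG, hi⟩, rfl⟩
    exact ha G hG i
  · have h2 : ∀ᶠ n : ℕ in atTop, T₀ ≤ goldenRatio ^ n :=
      (tendsto_pow_atTop_atTop_of_one_lt Real.one_lt_goldenRatio).eventually_ge_atTop T₀
    have h3 : ∀ᶠ n : ℕ in atTop, ∀ y ∈ S ×ˢ Set.Iio q, s₀ y.1 y.2 ≤ n / q := by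
      rw [eventually_all_finite (hSf.prod (Set.finite_Iio q))]
      intro y _
      filter_upwards [eventually_ge_atTop (q * s₀ y.1 y.2)] with n hn
      rw [Nat.le_div_iff_mul_le (by omega)]
      linarith [mul_comm q (s₀ y.1 y.2)]
    filter_upwards [h2, h3] with n hn2 hn3 x M hM hPx
    obtain ⟨G, hG, hx⟩ := hT (goldenRatio ^ n) hn2 x M hM hPx
    have hi : n % q < q := Nat.mod_lt _ (by omega)
    refine ⟨α G (n % q), ⟨(G, n % q), ⟨hG, hi⟩, rfl⟩, ?_⟩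
    refine hs₀ G hG (n % q) (n / q) (hn3 (G, n % q) ⟨hG, hi⟩) x ?_
    rw [Nat.div_add_mod]
    exact hx

/-- the numbers `φ`, `α j` -/
noncomputable def gg {m : ℕ} (α : Fin m → ℝ) : Fin (m + 1) → ℂ :=
  Fin.cons ((goldenRatio : ℝ) : ℂ) fun j => if α j = 0 then 1 else ((α j : ℝ) : ℂ)

lemma gg_ne {m : ℕ} (α : Fin m → ℝ) : ∀ j, gg α j ≠ 0 := by
  intro j
  refine Fin.cases ?_ (fun l => ?_) j
  · have : (goldenRatio : ℝ) ≠ 0 := Real.goldenRatio_ne_zero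
    simp only [gg, Fin.cons_zero]
    exact_mod_cast this
  · simp only [gg, Fin.cons_succ]
    split_ifs with h
    · exact one_ne_zero
    · exact_mod_cast h

lemma alg_five : IsAlgebraic ℚ (√5 : ℝ) := by
  refine IsAlgebraic.of_pow (n := 2) (by norm_num) ?_
  rw [Real.sq_sqrt (by norm_num)]
  have : ((5 : ℝ)) = algebraMap ℚ ℝ 5 := by simp
  rw [this]
  exact isAlgebraic_algebraMap _

lemma alg_gold : IsAlgebraic ℚ (goldenRatio : ℝ) := by
  have h1 : IsAlgebraic ℚ ((1 + √5) * (algebraMap ℚ ℝ (1 / 2)) : ℝ) :=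
    (isAlgebraic_one.add alg_five).mul (isAlgebraic_algebraMap _)
  have h2 : ((1 + √5) * (algebraMap ℚ ℝ (1 / 2)) : ℝ) = goldenRatio := by
    unfold goldenRatio
    simp
    ring
  rwa [h2] at h1

lemma gg_alg {m : ℕ} {α : Fin m → ℝ} (ha : ∀ j, IsAlgebraic ℚ (α j)) : ∀ j, IsAlgebraic ℚ (gg α j) := by
  intro j
  refine Fin.cases ?_ (fun l => ?_) j
  · simp only [gg, Fin.cons_zero]
    exact alg_gold.algebraMap
  · simp only [gg, Fin.cons_succ]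
    split_ifs with h
    · exact isAlgebraic_one
    · exact (ha l).algebraMap

lemma mem_sums {m : ℕ} (N : ℕ) (α : Fin m → ℝ) (n s : ℕ) (hn : 1 ≤ n) (hs : s ≤ n) (x : ℤ) (hx : (x : ℝ) = val N α s) :
    x ∈ Sums (gg α) m ((N + m + 1) * n) := by
  classical
  obtain ⟨F, hF⟩ : ∃ F : Finset (Fin m), F = Finset.univ.filter fun j => α j ≠ 0 := ⟨_, rfl⟩
  have hFm : ∀ j ∈ F, α j ≠ 0 := fun j hj => by
    rw [hF] at hj
    exact (Finset.mem_filter.1 hj).2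
  have hB : (1 : ℤ) ≤ (((N + m + 1) * n : ℕ) : ℤ) := by
    have : 1 ≤ (N + m + 1) * n := Nat.mul_pos (by omega) hn
    exact_mod_cast this
  refine ⟨F.card, (Finset.card_le_univ F).trans (by simp), fun i => Fin.cons ((s : ℤ) * ((N : ℤ) - ((F.equivFin.symm i : Fin m) : ℕ)))
    fun l => if l = (F.equivFin.symm i : Fin m) then 1 else 0, ?_, ?_⟩
  · intro i j
    refine Fin.cases ?_ (fun l => ?_) j
    · simp only [Fin.cons_zero]
      rw [abs_mul]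
      push_cast
      have h1 : |(s : ℤ)| ≤ n := by
        rw [abs_of_nonneg (by positivity)]
        exact_mod_cast hs
      have hl : (((F.equivFin.symm i : Fin m) : ℕ) : ℤ) ≤ m := by
        exact_mod_cast (F.equivFin.symm i : Fin m).2.le
      have h2 : |((N : ℤ) - ((F.equivFin.symm i : Fin m) : ℕ))| ≤ (N + m + 1 : ℤ) := by
        rw [abs_le]
        constructor <;> omega
      calc |(s : ℤ)| * |((N : ℤ) - ((F.equivFin.symm i : Fin m) : ℕ))| ≤ (n : ℤ) * (N + m + 1 : ℤ) :=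
            mul_le_mul h1 h2 (abs_nonneg _) (by positivity)
        _ = (N + m + 1 : ℤ) * n := mul_comm _ _
    · simp only [Fin.cons_succ]
      split_ifs
      · rw [abs_one]
        exact hB
      · rw [abs_zero]
        positivity
  · have h2 : (x : ℂ) = ((x : ℝ) : ℂ) := by push_cast; rfl
    rw [h2, hx, val, Complex.ofReal_sum]
    simp only [Complex.ofReal_mul, Complex.ofReal_zpow]
    have h3 : ∑ j : Fin m, ((goldenRatio : ℝ) : ℂ) ^ ((s : ℤ) * ((N : ℤ) - (j : ℕ))) * ((α j : ℝ) : ℂ) =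
        ∑ j ∈ F, ((goldenRatio : ℝ) : ℂ) ^ ((s : ℤ) * ((N : ℤ) - (j : ℕ))) * ((α j : ℝ) : ℂ) := by
      symm
      refine Finset.sum_subset (Finset.subset_univ _) fun j _ hj => ?_
      have h4 : α j = 0 := by
        by_contra h
        exact hj (by rw [hF]; simpa using h)
      rw [h4]
      simp
    rw [h3, ← Finset.sum_coe_sort F, ← Equiv.sum_comp F.equivFin.symm]
    refine Finset.sum_congr rfl fun i _ => ?_
    rw [Fin.prod_univ_succ]
    simp only [Fin.cons_zero, Fin.cons_succ, gg]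
    have h5 : α (F.equivFin.symm i : Fin m) ≠ 0 := hFm _ (F.equivFin.symm i).2
    rw [Finset.prod_eq_single (F.equivFin.symm i : Fin m)]
    · rw [if_pos rfl, zpow_one, if_neg h5]
    · intro l _ hl
      rw [if_neg hl, zpow_zero]
    · intro h
      exact absurd (Finset.mem_univ _) h

lemma pair (hCUR : S_CUR) (hEXP : S_EXP) (hSUB : S_SUB) (hGRO : S_GRO) {P : MvPolynomial (Fin 2) ℤ} (hP : P ≠ 0) {κ c : ℝ}
    (hκ : IsAlgebraic ℚ κ) (hc : IsAlgebraic ℚ c) (hκ0 : κ ≠ 0) (ε : ℝ) (hε : 0 < ε) :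
    ∀ᶠ A : ℕ in atTop, ∀ n M : ℕ, Adm A n M → κ * M = goldenRatio ^ n - c * (goldenRatio ^ n)⁻¹ →
      (M : ℝ) ≤ goldenRatio ^ (n + 2) →
      (∀ x : ℤ, MvPolynomial.eval ![x, (M : ℤ)] P = 0 → (M : ℤ) ∣ x ∨ (Int.gcd x M : ℝ) < (M : ℝ) ^ ε) ∧
      ∀ d : ℕ, d ∣ M → 1 < d → d < M → MvPolynomial.eval ![(d : ℤ), (M : ℤ)] P ≠ 0 := by
  obtain ⟨q, N, m, hq, F, hFf, hFa, hbr⟩ := branch hCUR hEXP hSUB hP hκ hc hκ0
  have hqR : (1 : ℝ) ≤ q := by exact_mod_cast hq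
  obtain ⟨ε₁, hε₁⟩ : ∃ ε₁ : ℝ, ε₁ = min ε (1 / (8 * q)) := ⟨_, rfl⟩
  have hε₁0 : 0 < ε₁ := by
    rw [hε₁]
    exact lt_min hε (by positivity)
  obtain ⟨n₀, hn₀⟩ := eventually_atTop.1 hbr
  have h1 : ∀ᶠ A : ℕ in atTop, ∀ α ∈ F, ∀ n M : ℕ, Adm A n M → ∀ x : ℤ, (x : ℝ) = val N α (n / q) →
      (M : ℤ) ∣ x ∨ (Int.gcd x M : ℝ) < (M : ℝ) ^ ε₁ := by
    rw [eventually_all_finite hFf]
    intro α hα
    obtain ⟨P₁, hP₁⟩ := any_k m (gg α) (gg_ne α) (gg_alg (hFa α hα)) (N + m + 1) ε₁ hε₁0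
    filter_upwards [eventually_ge_atTop P₁] with A hA n M hadm x hx
    have hn := hadm.lt
    exact hP₁ n M (hadm.mono hA) x (mem_sums N α n (n / q) (by omega) (Nat.div_le_self _ _) x hx)
  have h2 : ∀ᶠ A : ℕ in atTop, ∀ α ∈ F, ∀ n M : ℕ, Adm A n M → ∀ d : ℕ, d ∣ M → 1 < d → (d : ℝ) = val N α (n / q) →
      goldenRatio ^ (((n / q : ℕ) : ℝ) / 2) ≤ d := by
    rw [eventually_all_finite hFf]
    intro α hα
    obtain ⟨s₀, B, hs₀⟩ := hGRO m α N
    obtain ⟨P₁, hP₁⟩ := Adm.primes B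
    filter_upwards [eventually_ge_atTop P₁, eventually_ge_atTop (q * s₀)] with A hA hA2 n M hadm d hd hd1 hx
    have hn := hadm.lt
    have h3 : s₀ ≤ n / q := by
      rw [Nat.le_div_iff_mul_le (by omega)]
      linarith [mul_comm q s₀]
    refine (hs₀ (n / q) h3 d hx).resolve_left fun h4 => ?_
    have h5 := Nat.minFac_prime (show d ≠ 1 by omega)
    have h6 := hP₁ n M (hadm.mono hA) _ h5 ((Nat.minFac_dvd d).trans hd)
    have h7 := Nat.minFac_le (show 0 < d by omega)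
    omega
  filter_upwards [h1, h2, eventually_ge_atTop n₀, eventually_ge_atTop q, eventually_ge_atTop 3] with A hA1 hA2 hA3 hA4
    hA5 n M hadm hM hM2
  have hn := hadm.lt
  have hM1 : 1 < M := hadm.one_lt hA5
  have hMr : (1 : ℝ) < M := by exact_mod_cast hM1
  have key : ∀ x : ℤ, MvPolynomial.eval ![x, (M : ℤ)] P = 0 →
      (M : ℤ) ∣ x ∨ (Int.gcd x M : ℝ) < (M : ℝ) ^ ε₁ := by
    intro x hx
    obtain ⟨α, hα, hxα⟩ := hn₀ n (by omega) x M (by exact_mod_cast hM) hx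
    exact hA1 α hα n M hadm x hxα
  refine ⟨fun x hx => (key x hx).imp_right fun h => h.trans_le
    (Real.rpow_le_rpow_of_exponent_le hMr.le (by rw [hε₁]; exact min_le_left _ _)), ?_⟩
  intro d hd hd1 hdM hx
  obtain ⟨α, hα, hxα⟩ := hn₀ n (by omega) d M (by exact_mod_cast hM) hx
  have hg := hA2 α hα n M hadm d hd hd1 (by exact_mod_cast hxα)
  rcases key d hx with h | h
  · have h3 := Nat.le_of_dvd (by omega) (Int.natCast_dvd_natCast.1 h)
    omega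
  · rw [Int.gcd_natCast_natCast, Nat.gcd_eq_left hd] at h
    have hs1 : 1 ≤ n / q := by
      rw [Nat.le_div_iff_mul_le (by omega)]
      omega
    have hφ1 : (1 : ℝ) ≤ goldenRatio := Real.one_lt_goldenRatio.le
    have hφ0 : (0 : ℝ) < goldenRatio := Real.goldenRatio_pos
    have h3 : (M : ℝ) ^ ε₁ ≤ goldenRatio ^ (((n / q : ℕ) : ℝ) / 2) := by
      calc (M : ℝ) ^ ε₁ ≤ (M : ℝ) ^ (1 / (8 * (q : ℝ))) :=
            Real.rpow_le_rpow_of_exponent_le hMr.le (by rw [hε₁]; exact min_le_right _ _)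
        _ ≤ (goldenRatio ^ (n + 2)) ^ (1 / (8 * (q : ℝ))) :=
            Real.rpow_le_rpow (by positivity) hM2 (by positivity)
        _ = goldenRatio ^ (((n + 2 : ℕ) : ℝ) * (1 / (8 * (q : ℝ)))) := by
            rw [Real.rpow_mul hφ0.le, Real.rpow_natCast]
        _ ≤ goldenRatio ^ (((n / q : ℕ) : ℝ) / 2) := by
            refine Real.rpow_le_rpow_of_exponent_le hφ1 ?_
            have h4 : n + 2 ≤ 4 * (q * (n / q)) := by
              have h5 := Nat.div_add_mod n q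
              have h6 : n % q < q := Nat.mod_lt _ (by omega)
              have h7 : q * 1 ≤ q * (n / q) := Nat.mul_le_mul_left q hs1
              omega
            have h5 : ((n + 2 : ℕ) : ℝ) ≤ 4 * (q * ((n / q : ℕ) : ℝ)) := by exact_mod_cast h4
            rw [mul_one_div, div_le_div_iff₀ (by positivity) (by norm_num)]
            linarith
    linarith

/-- module FIN -/
theorem t_FIN (hCUR : S_CUR) (hEXP : S_EXP) (hSUB : S_SUB) (hGRO : S_GRO) (hSIZ : S_SIZ) : S_FIN := by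
  intro P hP ε hε
  have a1 : IsAlgebraic ℚ (1 : ℝ) := isAlgebraic_one
  have a2 : IsAlgebraic ℚ (-1 : ℝ) := isAlgebraic_one.neg
  have h1 := pair hCUR hEXP hSUB hGRO hP (κ := √5) (c := -1) alg_five a2 (by positivity) ε hε
  have h2 := pair hCUR hEXP hSUB hGRO hP (κ := 1) (c := 1) a1 a1 one_ne_zero ε hε
  have h3 := pair hCUR hEXP hSUB hGRO hP (κ := 1) (c := -1) a1 a2 one_ne_zero ε hε
  obtain ⟨A, ⟨⟨hA1, hA2⟩, hA3⟩, hA4⟩ := (((h1.and h2).and h3).and (eventually_ge_atTop 3)).exists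
  refine ⟨A, fun n M hadm => ?_⟩
  obtain ⟨h5, h6⟩ := hSIZ n M (hadm.mono hA4)
  rcases h5 with h5 | h5 | h5
  · exact hA1 n M hadm h5 h6
  · exact hA2 n M hadm h5 h6
  · exact hA3 n M hadm h5 h6

end Pool.Agent.H61.FA
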